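import Mathlib

set_option autoImplicit false

namespace Pool.Agent.H.MP_135e37_an
open scoped ENNReal Topology
open MeasureTheory Set Filter Metric

noncomputable def P (h : ℂ → ℝ≥0∞) (ξ : ℂ) (r : ℝ) : ℝ≥0∞ :=
  ∫⁻ s in ball (0 : ℂ) 1, h (ξ + r • s)

noncomputable def Ps (h : ℂ → ℝ≥0∞) (ξ : ℂ) : ℝ≥0∞ := ∫⁻ r in Ioi (0 : ℝ), P h ξ r

noncomputable def q : ℝ≥0∞ := volume (ball (0 : ℂ) 1)

theorem q0 : q ≠ 0 := (measure_ball_pos _ _ one_pos).ne'

theorem qt : q ≠ ⊤ := measure_ball_lt_top.ne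

variable {h h₁ h₂ : ℂ → ℝ≥0∞}

theorem mP (hh : Measurable h) (ξ : ℂ) : Measurable (P h ξ) :=
  Measurable.lintegral_prod_right' (f := fun z : ℝ × ℂ => h (ξ + z.1 • z.2))
    (hh.comp (by fun_prop))

theorem P_le1 {ξ : ℂ} {r : ℝ} {a : ℝ≥0∞} (H : ∀ s ∈ ball (0 : ℂ) 1, h (ξ + r • s) ≤ a) :
    P h ξ r ≤ a * q :=
  (setLIntegral_mono' measurableSet_ball H).trans_eq (setLIntegral_const _ _)

theorem P_le2 (hh : Measurable h) (ξ : ℂ) {r : ℝ} (hr : 0 < r) :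
    P h ξ r ≤ ENNReal.ofReal (r ^ 2)⁻¹ * ∫⁻ z, h z := by
  refine (setLIntegral_le_lintegral _ _).trans_eq ?_
  have h1 : Measurable fun z => h (ξ + z) := hh.comp (by fun_prop)
  rw [← lintegral_map h1 (measurable_const_smul r), Measure.map_addHaar_smul _ hr.ne',
    lintegral_smul_measure, lintegral_add_left_eq_self, Complex.finrank_real_complex,
    abs_of_pos (by positivity), smul_eq_mul]

theorem Ps_le (hh : Measurable h) (ξ : ℂ) {ρ : ℝ} (hρ : 0 < ρ) {a : ℝ≥0∞}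
    (H : ∀ r ∈ Ioc 0 ρ, ∀ s ∈ ball (0 : ℂ) 1, h (ξ + r • s) ≤ a) :
    Ps h ξ ≤ a * q * ENNReal.ofReal ρ + ENNReal.ofReal ρ⁻¹ * ∫⁻ z, h z := by
  unfold Ps
  rw [← Ioc_union_Ioi_eq_Ioi hρ.le]
  refine (lintegral_union_le _ _ _).trans (add_le_add ?_ ?_)
  · refine (setLIntegral_mono' measurableSet_Ioc fun r hr => P_le1 (H r hr)).trans_eq ?_
    rw [setLIntegral_const, Real.volume_Ioc, sub_zero]
  · refine (setLIntegral_mono' measurableSet_Ioi fun r hr => P_le2 hh ξ (hρ.trans hr)).trans_eq ?_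
    rw [lintegral_mul_const _ (by fun_prop)]
    congr 1
    have e : ∀ r ∈ Ioi ρ, r ^ (-2 : ℝ) = (r ^ 2)⁻¹ := fun r hr => by
      rw [Real.rpow_neg (hρ.trans hr).le, Real.rpow_two]
    rw [← ofReal_integral_eq_lintegral_ofReal
      ((integrableOn_Ioi_rpow_of_lt (by norm_num) hρ).congr_fun e measurableSet_Ioi)
      (Eventually.of_forall fun r => by positivity), ← setIntegral_congr_fun measurableSet_Ioi e,
      integral_Ioi_rpow_of_lt (by norm_num) hρ]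
    congr 1
    norm_num [Real.rpow_neg_one]

theorem P_add (H : ∀ z, h z ≤ h₁ z + h₂ z) (m : Measurable h₁) (ξ : ℂ) (r : ℝ) :
    P h ξ r ≤ P h₁ ξ r + P h₂ ξ r :=
  (lintegral_mono fun _ => H _).trans_eq (lintegral_add_left (m.comp (by fun_prop)) _)

theorem Ps_add (H : ∀ z, h z ≤ h₁ z + h₂ z) (m : Measurable h₁) (ξ : ℂ) :
    Ps h ξ ≤ Ps h₁ ξ + Ps h₂ ξ :=
  (lintegral_mono fun _ => P_add H m ξ _).trans_eq (lintegral_add_left (mP m ξ) _)

theorem Ps_tsum {k : ℕ → ℂ → ℝ≥0∞} (H : ∀ z, h z ≤ ∑' j, k j z) (m : ∀ j, Measurable (k j))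
    (ξ : ℂ) : Ps h ξ ≤ ∑' j, Ps (k j) ξ := by
  refine (lintegral_mono fun r => ?_).trans_eq (lintegral_tsum fun j => (mP (m j) ξ).aemeasurable)
  exact (lintegral_mono fun _ => H _).trans_eq
    (lintegral_tsum fun j => ((m j).comp (by fun_prop)).aemeasurable)

def Good (h : ℂ → ℝ≥0∞) : Prop :=
  ∀ ε, 0 < ε → (∀ᶠ ξ in cocompact ℂ, Ps h ξ ≤ ε) ∧ ∀ᶠ R in atTop, ∀ η, P h η R ≤ ε

theorem good_lim (H : ∀ ε, 0 < ε → ∃ h₁ h₂ : ℂ → ℝ≥0∞, Measurable h₁ ∧ Good h₁ ∧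
    (∀ z, h z ≤ h₁ z + h₂ z) ∧ (∀ᶠ ξ in cocompact ℂ, Ps h₂ ξ ≤ ε) ∧
      ∀ᶠ R in atTop, ∀ η, P h₂ η R ≤ ε) : Good h := fun ε hε => by
  have h2 := ENNReal.half_pos hε.ne'
  obtain ⟨h₁, h₂, m, g, a, b, c⟩ := H _ h2
  constructor
  · filter_upwards [(g _ h2).1, b] with ξ x y
    exact (Ps_add a m ξ).trans ((add_le_add x y).trans_eq (ENNReal.add_halves ε))
  · filter_upwards [(g _ h2).2, c] with R x y η
    exact (P_add a m η R).trans ((add_le_add (x η) (y η)).trans_eq (ENNReal.add_halves ε))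

theorem good_add (m : Measurable h₁) (g₁ : Good h₁) (g₂ : Good h₂) :
    Good fun z => h₁ z + h₂ z :=
  good_lim fun ε hε => ⟨h₁, h₂, m, g₁, fun _ => le_rfl, g₂ ε hε⟩

theorem good_of (hh : Measurable h) {a : ℝ≥0∞} (ha : a ≠ ⊤) (H : ∀ z, h z ≤ a)
    (hb : ∫⁻ z, h z ≠ ⊤) : Good h := fun ε hε => by
  have t0 : ∀ {f : ℝ → ℝ}, Tendsto f atTop atTop →
      ∀ᶠ R in atTop, ENNReal.ofReal (f R)⁻¹ * ∫⁻ z, h z ≤ ε / 2 := fun {f} hf => by
    have := ENNReal.Tendsto.mul_const (ENNReal.tendsto_ofReal hf.inv_tendsto_atTop) (.inr hb)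
    rw [ENNReal.ofReal_zero, zero_mul] at this
    exact this.eventually (ge_mem_nhds (ENNReal.half_pos hε.ne'))
  constructor
  · have h4 := ENNReal.half_pos (ENNReal.half_pos hε.ne').ne'
    have t1 : Tendsto (fun δ : ℝ => a * q * ENNReal.ofReal δ) (𝓝[>] 0) (𝓝 0) := by
      have := ENNReal.Tendsto.const_mul (a := a * q) (ENNReal.tendsto_ofReal
        (tendsto_id.mono_left (nhdsWithin_le_nhds (a := (0 : ℝ)) (s := Ioi 0))))
        (.inr (ENNReal.mul_ne_top ha qt))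
      simpa using this
    obtain ⟨δ, d1, d2⟩ := ((t1.eventually (ge_mem_nhds h4)).and self_mem_nhdsWithin).exists
    have t2 : Tendsto (fun n : ℕ => ENNReal.ofReal δ⁻¹ * ∫⁻ z, (ball (0 : ℂ) n)ᶜ.indicator h z)
        atTop (𝓝 0) := by
      have := tendsto_lintegral_of_dominated_convergence (μ := volume) (f := fun _ => 0)
        (F := fun (n : ℕ) => (ball (0 : ℂ) n)ᶜ.indicator h) h
        (fun n => hh.indicator measurableSet_ball.compl)
        (fun n => Eventually.of_forall fun z => indicator_le_self _ _ z) hb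
        (Eventually.of_forall fun z => tendsto_const_nhds.congr' (by
          filter_upwards [tendsto_natCast_atTop_atTop.eventually (eventually_gt_atTop ‖z‖)]
            with n hn
          rw [indicator_of_notMem (by simpa using hn)]))
      simpa using ENNReal.Tendsto.const_mul (a := ENNReal.ofReal δ⁻¹) this
        (.inr ENNReal.ofReal_ne_top)
    obtain ⟨n, hn⟩ := (t2.eventually (ge_mem_nhds h4)).exists
    obtain ⟨T, T1, T2⟩ := ((t0 tendsto_id).and (eventually_gt_atTop 0)).exists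
    filter_upwards [(tendsto_norm_cocompact_atTop (E := ℂ)).eventually (eventually_ge_atTop (n + T))]
      with ξ hξ
    have m1 := hh.indicator (measurableSet_ball (x := (0 : ℂ)) (ε := n))
    refine (Ps_add (h₂ := (ball (0 : ℂ) n)ᶜ.indicator h)
      (fun z => (indicator_self_add_compl_apply _ _ z).ge) m1 ξ).trans
      ((add_le_add ?_ ?_).trans_eq (ENNReal.add_halves ε))
    · refine (Ps_le m1 ξ T2 (a := 0) fun r hr s hs => ?_).trans ?_
      · rw [indicator_of_notMem]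
        have := norm_sub_le (ξ + r • s) (r • s)
        rw [add_sub_cancel_right, norm_smul, Real.norm_of_nonneg hr.1.le] at this
        have := mul_le_of_le_one_right hr.1.le (mem_ball_zero_iff.1 hs).le
        rw [mem_ball_zero_iff, not_lt]
        linarith [hr.2]
      · rw [zero_mul, zero_mul, zero_add]
        exact le_trans (mul_le_mul_right (lintegral_mono fun z => indicator_le_self _ _ z) _) T1
    · exact (Ps_le (hh.indicator measurableSet_ball.compl) ξ d2 (a := a)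
        fun r _ s _ => (indicator_le_self _ _ _).trans (H _)).trans
        ((add_le_add d1 hn).trans_eq (ENNReal.add_halves _))
  · filter_upwards [t0 (tendsto_pow_atTop two_ne_zero), eventually_gt_atTop 0] with R x y η
    exact (P_le2 hh η y).trans (x.trans ENNReal.half_le_self)

theorem sob0 {g : ℂ → ℂ} (hh : Measurable h)
    (H : ∀ a v : ℂ, ∀ R : ℝ, 0 ≤ R →
      ‖g (a + R • v) - g a‖ₑ ≤ ∫⁻ r in Ioc 0 R, ‖v‖ₑ * h (a + r • v))
    (ξ ξ' : ℂ) {R : ℝ} (hR : 0 ≤ R) {δ : ℝ≥0∞} (hδ : ∀ η, P h η R ≤ δ) :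
    ‖g ξ - g ξ'‖ₑ * q ≤ Ps h ξ + Ps h ξ' + ‖ξ - ξ'‖ₑ * δ := by
  have a1 : ∀ a : ℂ, ∀ s ∈ ball (0 : ℂ) 1,
      ‖g (a + R • s) - g a‖ₑ ≤ ∫⁻ r in Ioi (0 : ℝ), h (a + r • s) := fun a s hs => by
    refine (H a s R hR).trans ((lintegral_mono fun r => ?_).trans
      (lintegral_mono_set Ioc_subset_Ioi_self))
    refine mul_le_of_le_one_left' ?_
    rw [← ofReal_norm]
    exact ENNReal.ofReal_le_one.2 (mem_ball_zero_iff.1 hs).le
  have m1 : ∀ a : ℂ, Measurable fun z : ℂ × ℝ => h (a + z.2 • z.1) :=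
    fun a => hh.comp (by fun_prop)
  have a2 : ∀ a : ℂ, ∫⁻ s in ball (0 : ℂ) 1, ∫⁻ r in Ioi (0 : ℝ), h (a + r • s) = Ps h a :=
    fun a => lintegral_lintegral_swap (m1 a).aemeasurable
  have m2 : Measurable fun z : ℂ × ℝ => ‖ξ - ξ'‖ₑ * h (ξ' + R • z.1 + z.2 • (ξ - ξ')) :=
    (hh.comp (by fun_prop)).const_mul _
  have a3 : ∫⁻ s in ball (0 : ℂ) 1, ∫⁻ r in Ioc (0 : ℝ) 1,
      ‖ξ - ξ'‖ₑ * h (ξ' + R • s + r • (ξ - ξ')) ≤ ‖ξ - ξ'‖ₑ * δ := by
    rw [lintegral_lintegral_swap m2.aemeasurable]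
    refine (lintegral_mono fun r => ?_).trans_eq
      ((setLIntegral_const _ (‖ξ - ξ'‖ₑ * δ)).trans (by simp))
    rw [lintegral_const_mul' _ _ enorm_ne_top]
    refine mul_le_mul_right (le_trans (le_of_eq ?_) (hδ (ξ' + r • (ξ - ξ')))) _
    simp only [P, add_right_comm]
  rw [q, ← setLIntegral_const, ← a2, ← a2]
  refine le_trans ?_ (add_le_add_right a3 _)
  rw [← lintegral_add_left (m1 ξ).lintegral_prod_right',
    ← lintegral_add_right _ m2.lintegral_prod_right']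
  refine setLIntegral_mono' measurableSet_ball fun s hs => ?_
  have b := H (ξ' + R • s) (ξ - ξ') 1 zero_le_one
  have e : g ξ - g ξ' = -(g (ξ + R • s) - g ξ) + (g (ξ' + R • s) - g ξ') +
      (g (ξ' + R • s + (1 : ℝ) • (ξ - ξ')) - g (ξ' + R • s)) := by
    rw [one_smul, show ξ' + R • s + (ξ - ξ') = ξ + R • s by ring]; ring
  rw [e]
  refine (enorm_add_le _ _).trans (add_le_add ((enorm_add_le _ _).trans (add_le_add ?_ ?_)) b)
  · rw [enorm_neg]; exact a1 ξ s hs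
  · exact a1 ξ' s hs

theorem sob {g : ℂ → ℂ} (hh : Measurable h) (G : Good h)
    (H : ∀ a v : ℂ, ∀ R : ℝ, 0 ≤ R →
      ‖g (a + R • v) - g a‖ₑ ≤ ∫⁻ r in Ioc 0 R, ‖v‖ₑ * h (a + r • v))
    {u v : ℝ → ℂ} (hu : Tendsto u atTop (cocompact ℂ)) (hv : Tendsto v atTop (cocompact ℂ))
    {L M : ℂ} (hL : Tendsto (fun t => g (u t)) atTop (𝓝 L))
    (hM : Tendsto (fun t => g (v t)) atTop (𝓝 M)) : L = M := by
  have a1 : ∀ ξ ξ', ‖g ξ - g ξ'‖ₑ * q ≤ Ps h ξ + Ps h ξ' := fun ξ ξ' => by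
    refine ENNReal.le_of_forall_pos_le_add fun ε hε _ => ?_
    obtain ⟨R, R1, R2⟩ := ((G (ε / ‖ξ - ξ'‖ₑ) (ENNReal.div_pos (by simpa using hε.ne')
      enorm_ne_top)).2.and (eventually_ge_atTop 0)).exists
    exact (sob0 hh H ξ ξ' R2 R1).trans (add_le_add_right ENNReal.mul_div_le _)
  have a2 : ‖L - M‖ₑ * q ≤ 0 := by
    refine ENNReal.le_of_forall_pos_le_add fun ε hε _ => ?_
    have h2 := ENNReal.half_pos (a := ε) (by simpa using hε.ne')
    refine le_of_tendsto (ENNReal.Tendsto.mul_const (hL.sub hM).enorm (.inr qt)) ?_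
    filter_upwards [hu.eventually (G _ h2).1, hv.eventually (G _ h2).1] with t x y
    rw [zero_add]
    exact (a1 _ _).trans ((add_le_add x y).trans_eq (ENNReal.add_halves _))
  simpa [q0, sub_eq_zero] using a2

end Pool.Agent.H.MP_135e37_an
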