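import Pool.Agent.H.MP_4002ad_an.A

set_option autoImplicit false

namespace Pool.Agent.H.MP_135e37_an
open scoped ENNReal InnerProductSpace Topology ComplexConjugate
open MeasureTheory Set Filter FourierTransform SchwartzMap Real Pool.Agent.H.MP_4002ad_an

noncomputable abbrev L2 := Lp ℂ 2 (volume : Measure ℂ)

theorem inj {k : ℂ → ℂ} (hk : Integrable k) (h : ∀ ξ, 𝓕 k ξ = 0) : ∀ᵐ p, k p = 0 := by
  have hL : Continuous fun p : ℂ × ℂ => innerₗ ℂ p.1 p.2 := continuous_inner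
  refine ae_eq_zero_of_integral_contDiff_smul_eq_zero hk.locallyIntegrable fun u u1 u2 => ?_
  let φ := (u2.comp_left (g := Complex.ofRealCLM) (map_zero _)).toSchwartzMap
    (Complex.ofRealCLM.contDiff.comp u1)
  have h1 := VectorFourier.integral_fourierIntegral_smul_eq_flip (μ := volume) (ν := volume)
    continuous_fourierChar hL (𝓕⁻ φ).integrable hk
  rw [flip_innerₗ] at h1
  have h2 : ∫ ξ, (𝓕 (𝓕⁻ φ)) ξ • k ξ = ∫ x, (𝓕⁻ φ) x • 𝓕 k x := h1
  rw [fourier_fourierInv_eq] at h2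
  simp only [h, smul_zero, integral_zero] at h2
  exact h2

theorem planch {k : ℂ → ℂ} (hk : Integrable k) (h2 : ∫⁻ p, ‖k p‖ₑ ^ 2 ≠ ⊤) :
    ∫⁻ ξ, ‖𝓕 k ξ‖ₑ ^ 2 = ∫⁻ p, ‖k p‖ₑ ^ 2 := by
  have m := mem2 hk.1 h2
  have a := four (m.toLp k) (hk.congr m.coeFn_toLp.symm)
  have b : 𝓕 (m.toLp k : ℂ → ℂ) = 𝓕 k := by
    ext ξ
    rw [fourier_eq, fourier_eq]
    refine integral_congr_ae ?_
    filter_upwards [m.coeFn_toLp] with p hp
    rw [hp]
  rw [← el, ← el, ← b, ← eLpNorm_congr_ae a, ← eLpNorm_congr_ae m.coeFn_toLp, ← Lp.enorm_def,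
    ← Lp.enorm_def, ← ofReal_norm, ← ofReal_norm, Lp.norm_fourier_eq]

theorem ii (a b : L2) : Integrable fun p => conj (a p) * b p := by
  refine (L2.integrable_inner (𝕜 := ℂ) a b).congr (.of_forall fun p => ?_)
  simp [mul_comm]

theorem mulop {χ : ℂ → ℂ} (m : AEStronglyMeasurable χ) (h : ∀ p, ‖χ p‖ ≤ 1) :
    ∃ N : L2 →L[ℂ] L2, (∀ g, ‖N g‖ ≤ ‖g‖) ∧ ∀ g, N g =ᵐ[volume] fun p => χ p * g p := by
  have t := memLp_top_of_bound m 1 (.of_forall h)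
  have a : ∀ g : L2, (ContinuousLinearMap.mul ℂ ℂ).holderL volume ⊤ 2 2 (t.toLp χ) g
      =ᵐ[volume] fun p => χ p * g p := fun g => by
    filter_upwards [(ContinuousLinearMap.mul ℂ ℂ).coeFn_holder (r := 2) (t.toLp χ) g,
      t.coeFn_toLp] with p h1 h2
    exact h1.trans (by rw [h2]; rfl)
  refine ⟨_, fun g => Lp.norm_le_norm_of_ae_le ?_, a⟩
  filter_upwards [a g] with p hp
  rw [hp, norm_mul]
  exact mul_le_of_le_one_left (norm_nonneg _) (h p)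

variable {H : Type} [NormedAddCommGroup H] [InnerProductSpace ℂ H] [CompleteSpace H]

structure Grp (U : ℂ → H →L[ℂ] H) : Prop where
  add : ∀ a b z, U (a + b) z = U a (U b z)
  adj : ∀ a y z, ⟪U a y, z⟫_ℂ = ⟪y, U (-a) z⟫_ℂ
  zero : ∀ z, U 0 z = z

theorem rep {U : ℂ → H →L[ℂ] H} (hU : Grp U) {x : H} {f : ℂ → ℂ} (fi : Integrable f)
    (hf : ∀ ξ, ⟪x, U ξ x⟫_ℂ = 𝓕 f ξ) :
    ∃ (J : L2 →L[ℂ] H) (w : L2), J w = x ∧ (∀ g, ‖J g‖ ≤ ‖g‖) ∧
      ∀ u g ξ, ⟪u, U ξ (J g)⟫_ℂ = 𝓕 (fun p => conj (J.adjoint u p) * g p) ξ := by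
  obtain ⟨φ, φ0, φm, φi⟩ := exists_pos_lintegral_lt_of_sigmaFinite (volume : Measure ℂ) one_ne_zero
  have φI : Integrable fun p => (φ p : ℝ) :=
    ⟨φm.coe_nnreal_real.aestronglyMeasurable, by
      simpa [HasFiniteIntegral] using φi.trans ENNReal.one_lt_top⟩
  set ρ : ℂ → ℝ := fun p => ‖f p‖ + φ p with hρ
  have ρI : Integrable ρ := fi.norm.add φI
  have ρ0 : ∀ p, 0 < ρ p := fun p => add_pos_of_nonneg_of_pos (norm_nonneg _) (φ0 p)
  have wm : MemLp (fun p => ((√(ρ p) : ℝ) : ℂ)) 2 := by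
    rw [memLp_two_iff_integrable_sq_norm (Complex.continuous_ofReal.comp_aestronglyMeasurable
      (continuous_sqrt.comp_aestronglyMeasurable ρI.1))]
    refine ρI.congr (.of_forall fun p => ?_)
    simp [sq_sqrt (ρ0 p).le]
  set w := wm.toLp _
  have hw : w =ᵐ[volume] fun p => ((√(ρ p) : ℝ) : ℂ) := wm.coeFn_toLp
  obtain ⟨N, N1, N2⟩ := mulop (χ := fun p => f p / ρ p)
    (fi.1.aemeasurable.div (Complex.measurable_ofReal.comp_aemeasurable
      ρI.1.aemeasurable)).aestronglyMeasurable fun p => by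
      rw [norm_div, Complex.norm_real, norm_of_nonneg (ρ0 p).le, div_le_one (ρ0 p)]
      exact le_add_of_nonneg_right (φ p).2
  choose M M1 M2 using fun ξ : ℂ => mulop (χ := fun p => (𝐞 (-⟪p, ξ⟫_ℝ) : ℂ))
    (Continuous.aestronglyMeasurable (by fun_prop)) fun p => (Circle.norm_coe _).le
  have Mi : ∀ (a b : L2) ξ, ⟪a, M ξ b⟫_ℂ = 𝓕 (fun p => conj (a p) * b p) ξ := fun a b ξ => by
    rw [L2.inner_def, fourier_eq]
    refine integral_congr_ae ?_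
    filter_upwards [M2 ξ b] with p hp
    rw [hp, RCLike.inner_apply, Circle.smul_def, smul_eq_mul]
    ring
  have Ma : ∀ ξ η g, M ξ (M η g) = M (ξ + η) g := fun ξ η g => by
    refine Lp.ext ?_
    filter_upwards [M2 ξ (M η g), M2 η g, M2 (ξ + η) g] with p h1 h2 h3
    rw [h1, h2, h3, inner_add_right, neg_add, AddChar.map_add_eq_mul, Circle.coe_mul, mul_assoc]
  have M0 : M 0 w = w := by
    refine Lp.ext ?_
    filter_upwards [M2 0 w] with p h1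
    simp [h1]
  have dn : Dense (Submodule.span ℂ (range fun ξ => M ξ w) : Set L2) := by
    rw [Submodule.dense_iff_topologicalClosure_eq_top, Submodule.topologicalClosure_eq_top_iff,
      Submodule.eq_bot_iff]
    intro g hg
    refine Lp.eq_zero_iff_ae_eq_zero.2 ?_
    filter_upwards [inj (ii g w) fun ξ => (Mi g w ξ).symm.trans
      (Submodule.inner_left_of_mem_orthogonal (Submodule.subset_span (mem_range_self ξ)) hg), hw]
      with p h1 h2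
    rw [h2] at h1
    simpa [(sqrt_pos.2 (ρ0 p)).ne'] using h1
  have key : ∀ ξ η, ⟪U ξ x, U η x⟫_ℂ = ⟪M ξ w, N (M η w)⟫_ℂ := fun ξ η => by
    rw [hU.adj, ← hU.add, hf, L2.inner_def, fourier_eq]
    refine integral_congr_ae ?_
    filter_upwards [M2 ξ w, M2 η w, N2 (M η w), hw] with p h1 h2 h3 h4
    have e : ((√(ρ p) : ℝ) : ℂ) * (√(ρ p) : ℝ) = ρ p := by
      rw [← Complex.ofReal_mul, mul_self_sqrt (ρ0 p).le]
    have e2 : (ρ p : ℂ) ≠ 0 := Complex.ofReal_ne_zero.2 (ρ0 p).ne'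
    rw [h3, h1, h2, h4, RCLike.inner_apply, Circle.smul_def, smul_eq_mul, map_mul,
      Complex.conj_ofReal, ← Circle.coe_inv_eq_conj, ← AddChar.map_neg_eq_inv, inner_add_right,
      inner_neg_right, neg_add, AddChar.map_add_eq_mul, Circle.coe_mul]
    linear_combination (-(𝐞 (- -⟪p, ξ⟫_ℝ) : ℂ) * 𝐞 (-⟪p, η⟫_ℝ) * f p / ρ p) * e -
      ((𝐞 (- -⟪p, ξ⟫_ℝ) : ℂ) * 𝐞 (-⟪p, η⟫_ℝ) * f p) * (mul_inv_cancel₀ e2)
  let a := Finsupp.linearCombination ℂ fun ξ => M ξ w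
  let b := Finsupp.linearCombination ℂ fun ξ => U ξ x
  have da : DenseRange a := by
    rw [DenseRange, ← LinearMap.coe_range, Finsupp.range_linearCombination]; exact dn
  have nb : ∀ c, ‖b c‖ ≤ 1 * ‖a c‖ := fun c => by
    have e : ⟪b c, b c⟫_ℂ = ⟪a c, N (a c)⟫_ℂ := by
      simp only [a, b, Finsupp.linearCombination_apply, Finsupp.sum, map_sum, map_smul, sum_inner,
        inner_sum, inner_smul_left, inner_smul_right, key]
    rw [one_mul, ← sq_le_sq₀ (norm_nonneg _) (norm_nonneg _)]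
    have := norm_inner_le_norm (𝕜 := ℂ) (a c) (N (a c))
    rw [← e, inner_self_eq_norm_sq_to_K, norm_pow, RCLike.norm_ofReal, abs_norm] at this
    nlinarith [N1 (a c), norm_nonneg (a c)]
  have Jv : ∀ ξ, b.extendOfNorm a (M ξ w) = U ξ x := fun ξ => by
    simpa [a, b] using LinearMap.extendOfNorm_eq da ⟨1, nb⟩ (Finsupp.single ξ 1)
  refine ⟨b.extendOfNorm a, w, ?_, fun g => ?_, fun u g ξ => ?_⟩
  · rw [← M0, Jv, hU.zero]
  · simpa using LinearMap.norm_extendOfNorm_apply_le da 1 nb g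
  · have : (U ξ).comp (b.extendOfNorm a) = (b.extendOfNorm a).comp (M ξ) :=
      ContinuousLinearMap.ext_on dn (by
        rintro _ ⟨η, rfl⟩
        simp only [ContinuousLinearMap.comp_apply, Ma, Jv, hU.add])
    rw [← Mi, ContinuousLinearMap.adjoint_inner_left]
    exact congrArg _ (DFunLike.congr_fun this g)

def Sm (U : ℂ → H →L[ℂ] H) (x : H) : Prop :=
  ∃ C : ℝ≥0∞, C ≠ ⊤ ∧ ∀ u, ‖u‖ ≤ 1 → ∫⁻ ξ, ‖⟪u, U ξ x⟫_ℂ‖ₑ ^ 2 ≤ C

theorem weak {U : ℂ → H →L[ℂ] H} (hU : Grp U) {x : H} {f : ℂ → ℂ} (fi : Integrable f)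
    (hf : ∀ ξ, ⟪x, U ξ x⟫_ℂ = 𝓕 f ξ) (u : H) :
    Tendsto (fun ξ => ⟪u, U ξ x⟫_ℂ) (cocompact ℂ) (𝓝 0) := by
  obtain ⟨J, w, rfl, -, h⟩ := rep hU fi hf
  simp only [h, fourier_eq]
  exact tendsto_integral_exp_inner_smul_cocompact _

theorem smd {U : ℂ → H →L[ℂ] H} (hU : Grp U)
    (hf : ∀ x, ∃ f : ℂ → ℂ, Integrable f ∧ ∀ ξ, ⟪x, U ξ x⟫_ℂ = 𝓕 f ξ) :
    Dense {x | Sm U x} := fun x => by
  obtain ⟨f, fi, hf⟩ := hf x
  obtain ⟨J, w, rfl, h1, h⟩ := rep hU fi hf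
  refine map_mem_closure J.continuous
    (SchwartzMap.denseRange_toLpCLM (E := ℂ) (F := ℂ) (p := 2) (μ := volume) (by simp) w) ?_
  rintro _ ⟨φ, rfl⟩
  set g := SchwartzMap.toLpCLM ℝ ℂ 2 volume φ
  have hg : g =ᵐ[volume] φ := φ.coeFn_toLp 2 volume
  set c := ‖φ.toBoundedContinuousFunction‖ₑ
  refine ⟨c ^ 2, ENNReal.pow_ne_top enorm_ne_top, fun u hu => ?_⟩
  have n1 : ‖J.adjoint u‖ ≤ 1 := by
    refine (J.adjoint.le_opNorm u).trans ?_
    rw [LinearIsometryEquiv.norm_map]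
    exact mul_le_one₀ (J.opNorm_le_bound zero_le_one (by simpa using h1)) (norm_nonneg _) hu
  have b : ∫⁻ p, ‖conj (J.adjoint u p) * g p‖ₑ ^ 2 ≤ c ^ 2 := by
    calc _ ≤ ∫⁻ p, c ^ 2 * ‖J.adjoint u p‖ₑ ^ 2 := by
          refine lintegral_mono_ae ?_
          filter_upwards [hg] with p hp
          rw [enorm_mul, hp, mul_pow, mul_comm, RCLike.enorm_conj]
          gcongr
          exact enorm_le_iff_norm_le.2 (φ.toBoundedContinuousFunction.norm_coe_le_norm p)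
      _ ≤ c ^ 2 := by
          rw [lintegral_const_mul' _ _ (ENNReal.pow_ne_top enorm_ne_top), ← el, ← Lp.enorm_def]
          refine mul_le_of_le_one_right' (pow_le_one' ?_ _)
          rw [← ofReal_norm]
          exact ENNReal.ofReal_le_one.2 n1
  simp only [h]
  rwa [planch (ii _ _) (ne_top_of_le_ne_top (ENNReal.pow_ne_top enorm_ne_top) b)]

end Pool.Agent.H.MP_135e37_an
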