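import Pool.Agent.H.MP_135e37_an.A

set_option autoImplicit false

namespace Pool.Agent.H.MP_135e37_an
open scoped ENNReal InnerProductSpace Topology
open MeasureTheory Set Filter

variable {H : Type} [NormedAddCommGroup H] [InnerProductSpace ℂ H] [CompleteSpace H]

def Rk (D : H →L[ℂ] H) (n : ℕ) : Prop :=
  Module.rank ℂ (LinearMap.range (D : H →ₗ[ℂ] H)) ≤ (n : Cardinal)

theorem Rk.exp {D : H →L[ℂ] H} {n : ℕ} (h : Rk D n) : ∃ m ≤ n, ∃ e u : Fin m → H,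
    (∀ i, ‖e i‖ ≤ 1) ∧ (∀ i, ‖u i‖ ≤ 1) ∧ ∀ z, D z = ∑ i, (‖D‖ * ⟪u i, z⟫_ℂ) • e i := by
  haveI : Module.Finite ℂ (LinearMap.range (D : H →ₗ[ℂ] H)) :=
    Module.rank_lt_aleph0_iff.1 (h.trans_lt Cardinal.natCast_lt_aleph0)
  let b := stdOrthonormalBasis ℂ (LinearMap.range (D : H →ₗ[ℂ] H))
  have hb : ∀ i, ‖(b i : H)‖ = 1 := b.orthonormal.1
  refine ⟨_, Module.finrank_le_of_rank_le h, fun i => b i,
    fun i => ((‖D‖⁻¹ : ℝ) : ℂ) • D.adjoint (b i), fun i => (hb i).le, fun i => ?_, fun z => ?_⟩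
  · have := D.adjoint.le_opNorm (b i)
    rw [LinearIsometryEquiv.norm_map, hb, mul_one] at this
    rw [norm_smul, Complex.norm_real, norm_inv, norm_norm]
    exact inv_mul_le_one_of_le₀ this (norm_nonneg _)
  · rcases eq_or_ne D 0 with rfl | h0
    · simp
    have e := congrArg Subtype.val (b.sum_repr' ⟨D z, z, rfl⟩)
    rw [AddSubmonoidClass.coe_finset_sum] at e
    refine e.symm.trans (Finset.sum_congr rfl fun i _ => ?_)
    rw [inner_smul_left, Complex.conj_ofReal, ← mul_assoc, ← Complex.ofReal_mul,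
      mul_inv_cancel₀ (norm_ne_zero_iff.2 h0), Complex.ofReal_one, one_mul,
      ContinuousLinearMap.adjoint_inner_left]
    rfl

omit [CompleteSpace H] in
theorem Rk.sub {D E : H →L[ℂ] H} {m n : ℕ} (h : Rk D m) (g : Rk E n) : Rk (D - E) (m + n) := by
  refine le_trans (Submodule.rank_mono ?_) ((Submodule.rank_add_le_rank_add_rank
    (LinearMap.range (D : H →ₗ[ℂ] H)) (LinearMap.range (E : H →ₗ[ℂ] H))).trans ?_)
  · rintro _ ⟨z, rfl⟩
    exact Submodule.sub_mem_sup ⟨z, rfl⟩ ⟨z, rfl⟩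
  · rw [Nat.cast_add]; exact add_le_add h g

omit [CompleteSpace H] in
theorem apx {T : H →L[ℂ] H} (h : Summable fun n : ℕ =>
    sInf {r : ℝ | ∃ F : H →L[ℂ] H, Rk F n ∧ r = ‖T - F‖} / √((n : ℝ) + 1)) :
    ∃ G : ℕ → H →L[ℂ] H, (∀ k, Rk (G k) (4 ^ k)) ∧ Tendsto G atTop (𝓝 T) ∧
      Summable fun k => (2 : ℝ) ^ k * ‖G (k + 1) - G k‖ := by
  set S : ℕ → Set ℝ := fun n => {r : ℝ | ∃ F : H →L[ℂ] H, Rk F n ∧ r = ‖T - F‖}
  have ne : ∀ n, (S n).Nonempty := fun n => ⟨_, 0, by simp [Rk], rfl⟩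
  have p : ∀ n, ∀ r ∈ S n, 0 ≤ r := by rintro n _ ⟨F, -, rfl⟩; exact norm_nonneg _
  have s0 : ∀ n, 0 ≤ sInf (S n) := fun n => Real.sInf_nonneg (p n)
  have an : ∀ m n, m ≤ n → sInf (S n) ≤ sInf (S m) := fun m n hmn =>
    csInf_le_csInf ⟨0, p n⟩ (ne m) fun r ⟨F, a, b⟩ => ⟨F, a.trans (by exact_mod_cast hmn), b⟩
  have h1 := ((summable_condensed_iff_of_nonneg (f := fun n : ℕ => sInf (S n) / √((n : ℝ) + 1))
    (fun n => div_nonneg (s0 n) (Real.sqrt_nonneg _)) fun m n _ hmn => by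
      have : (m : ℝ) ≤ n := by exact_mod_cast hmn
      exact div_le_div₀ (s0 m) (an m n hmn) (by positivity) (by gcongr)).2 h).comp_injective (mul_right_injective₀ (two_ne_zero (α := ℕ)))
  have h2 : Summable fun k : ℕ => (2 : ℝ) ^ k * (sInf (S (4 ^ k)) + (1 / 4) ^ k) := by
    refine Summable.of_nonneg_of_le (fun k => by have := s0 (4 ^ k); positivity) (fun k => ?_)
      ((h1.mul_left 2).add (summable_geometric_two))
    have e : (2 : ℕ) ^ (2 * k) = 4 ^ k := by rw [pow_mul]; rfl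
    have e2 : (2 : ℝ) ^ (2 * k) = 2 ^ k * 2 ^ k := by ring
    have e3 : (2 : ℝ) ^ k * (1 / 4) ^ k = (1 / 2) ^ k := by rw [← mul_pow]; norm_num
    have e4 : √(((4 ^ k : ℕ) : ℝ) + 1) ≤ 2 * 2 ^ k := by
      refine Real.sqrt_le_iff.2 ⟨by positivity, ?_⟩
      have : (1 : ℝ) ≤ 4 ^ k := one_le_pow₀ (by norm_num)
      have e5 : (2 * 2 ^ k : ℝ) ^ 2 = 4 * 4 ^ k := by
        rw [mul_pow, ← pow_mul, mul_comm k, pow_mul]; norm_num
      push_cast; linarith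
    simp only [Function.comp, e, e2, mul_add, e3]
    refine add_le_add_left ?_ _
    calc (2 : ℝ) ^ k * sInf (S (4 ^ k)) = 2 * (2 ^ k * 2 ^ k * (sInf (S (4 ^ k)) / (2 * 2 ^ k))) := by
          field_simp
      _ ≤ _ := by have := s0 (4 ^ k); gcongr
  choose r hr hr' using fun k : ℕ => Real.lt_sInf_add_pos (ne (4 ^ k))
    (show (0 : ℝ) < (1 / 4) ^ k by positivity)
  choose G G1 G2 using hr
  have h3 : Summable fun k : ℕ => (2 : ℝ) ^ k * ‖T - G k‖ :=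
    Summable.of_nonneg_of_le (fun k => by positivity) (fun k => by
      rw [← G2]; have := (hr' k).le; gcongr) h2
  refine ⟨G, G1, tendsto_iff_norm_sub_tendsto_zero.2 (squeeze_zero (fun k => norm_nonneg _)
    (fun k => ?_) h3.tendsto_atTop_zero), Summable.of_nonneg_of_le (fun k => by positivity)
    (fun k => ?_) (h3.add ((summable_nat_add_iff 1).2 h3))⟩
  · rw [norm_sub_rev]
    exact le_mul_of_one_le_left (norm_nonneg _) (one_le_pow₀ one_le_two)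
  · have a := norm_sub_le (T - G k) (T - G (k + 1))
    rw [sub_sub_sub_cancel_left] at a
    have b : (2 : ℝ) ^ k ≤ 2 ^ (k + 1) := pow_le_pow_right₀ one_le_two (by omega)
    calc _ ≤ (2 : ℝ) ^ k * (‖T - G k‖ + ‖T - G (k + 1)‖) := by gcongr
      _ ≤ _ := by rw [mul_add]; gcongr

theorem cpt {T : H →L[ℂ] H} {G : ℕ → H →L[ℂ] H} (G1 : ∀ k, Rk (G k) (4 ^ k))
    (G2 : Tendsto G atTop (𝓝 T)) {Z : ℝ → H} {α : ℝ} (hα : ∀ t, ‖Z t‖ ≤ α)
    (hZ : ∀ u, Tendsto (fun t => ⟪u, Z t⟫_ℂ) atTop (𝓝 0)) :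
    Tendsto (fun t => T (Z t)) atTop (𝓝 0) := by
  have a : ∀ k, Tendsto (fun t => G k (Z t)) atTop (𝓝 0) := fun k => by
    obtain ⟨m, -, e, u, -, -, h⟩ := (G1 k).exp
    simp only [h]
    simpa using tendsto_finset_sum Finset.univ fun i _ =>
      ((hZ (u i)).const_mul (‖G k‖ : ℂ)).smul_const (e i)
  rw [NormedAddGroup.tendsto_nhds_zero]
  intro ε hε
  have b := (tendsto_iff_norm_sub_tendsto_zero.1 G2).mul_const α
  rw [zero_mul] at b
  obtain ⟨k, hk⟩ := (b.eventually (gt_mem_nhds (half_pos hε))).exists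
  filter_upwards [NormedAddGroup.tendsto_nhds_zero.1 (a k) _ (half_pos hε)] with t ht
  have c := norm_sub_le (G k (Z t)) ((G k - T) (Z t))
  have d := (G k - T).le_opNorm_of_le (hα t)
  rw [_root_.sub_apply, sub_sub_cancel, ← _root_.sub_apply] at c
  linarith

structure Sv (X : ℂ → H) (α : ℝ) (C : ℝ≥0∞) : Prop where
  c : Continuous X
  b : ∀ ξ, ‖X ξ‖ ≤ α
  t : C ≠ ⊤
  s : ∀ u, ‖u‖ ≤ 1 → ∫⁻ ξ, ‖⟪u, X ξ⟫_ℂ‖ₑ ^ 2 ≤ C

noncomputable def hh (X Y : ℂ → H) (D : H →L[ℂ] H) (ξ : ℂ) : ℝ≥0∞ := ‖⟪Y ξ, D (X ξ)⟫_ℂ‖ₑ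

variable {X Y : ℂ → H} {α β : ℝ} {C C' : ℝ≥0∞}

omit [CompleteSpace H] in
theorem hm (hX : Sv X α C) (hY : Sv Y β C') (D : H →L[ℂ] H) : Measurable (hh X Y D) :=
  (hY.c.inner (D.continuous.comp hX.c)).enorm.measurable

omit [CompleteSpace H] in
theorem hb (hX : Sv X α C) (hY : Sv Y β C') (D : H →L[ℂ] H) (ξ : ℂ) :
    hh X Y D ξ ≤ ENNReal.ofReal (‖D‖ * (α * β)) := by
  rw [hh, ← ofReal_norm]
  refine ENNReal.ofReal_le_ofReal ((norm_inner_le_norm _ _).trans ?_)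
  rw [← mul_assoc, mul_comm]
  exact mul_le_mul (D.le_opNorm_of_le (hX.b ξ)) (hY.b ξ) (norm_nonneg _)
    (mul_nonneg (norm_nonneg _) ((norm_nonneg _).trans (hX.b ξ)))

theorem fr (hX : Sv X α C) (hY : Sv Y β C') {D : H →L[ℂ] H} {n : ℕ} (h : Rk D n) :
    ∫⁻ ξ, hh X Y D ξ ≤ n * (‖D‖ₑ * (C + C')) := by
  obtain ⟨m, hm, e, u, he, hu, h⟩ := h.exp
  have m1 : ∀ i, Measurable fun ξ => ‖⟪u i, X ξ⟫_ℂ‖ₑ ^ 2 :=
    fun i => (continuous_const.inner hX.c).enorm.measurable.pow_const _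
  have m2 : ∀ i, Measurable fun ξ => ‖⟪e i, Y ξ⟫_ℂ‖ₑ ^ 2 :=
    fun i => (continuous_const.inner hY.c).enorm.measurable.pow_const _
  calc _ ≤ ∫⁻ ξ, ∑ i, ‖D‖ₑ * (‖⟪u i, X ξ⟫_ℂ‖ₑ ^ 2 + ‖⟪e i, Y ξ⟫_ℂ‖ₑ ^ 2) := by
        refine lintegral_mono fun ξ => ?_
        rw [hh, h, inner_sum]
        refine (enorm_sum_le _ _).trans (Finset.sum_le_sum fun i _ => ?_)
        rw [inner_smul_right, mul_assoc, enorm_mul, enorm_mul, ← ofReal_norm ⟪Y ξ, e i⟫_ℂ,
          norm_inner_symm, ofReal_norm]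
        refine mul_le_mul' (le_of_eq ?_) ?_
        · rw [← ofReal_norm, Complex.norm_real, norm_norm, ofReal_norm]
        · rcases le_total ‖⟪u i, X ξ⟫_ℂ‖ₑ ‖⟪e i, Y ξ⟫_ℂ‖ₑ with a | a
          · exact le_add_left (by rw [sq]; gcongr)
          · exact le_add_right (by rw [sq]; gcongr)
    _ ≤ ∑ _i : Fin m, ‖D‖ₑ * (C + C') := by
        rw [lintegral_finset_sum (f := fun i ξ => ‖D‖ₑ * (‖⟪u i, X ξ⟫_ℂ‖ₑ ^ 2 +
          ‖⟪e i, Y ξ⟫_ℂ‖ₑ ^ 2)) _ fun i _ => ((m1 i).add (m2 i)).const_mul _]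
        refine Finset.sum_le_sum fun i _ => ?_
        rw [lintegral_const_mul' _ _ enorm_ne_top, lintegral_add_left (m1 i)]
        exact mul_le_mul_right (add_le_add (hX.s _ (hu i)) (hY.s _ (he i))) _
    _ ≤ _ := by
        rw [Finset.sum_const, Finset.card_fin, nsmul_eq_mul]
        gcongr

theorem goodT (hX : Sv X α C) (hY : Sv Y β C') {T : H →L[ℂ] H} {G : ℕ → H →L[ℂ] H}
    (G1 : ∀ k, Rk (G k) (4 ^ k)) (G2 : Tendsto G atTop (𝓝 T))
    (G3 : Summable fun k => (2 : ℝ) ^ k * ‖G (k + 1) - G k‖) : Good (hh X Y T) := by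
  have ct : C + C' ≠ ⊤ := ENNReal.add_ne_top.2 ⟨hX.t, hY.t⟩
  set c := ENNReal.ofReal (α * β) * q + 5 * (C + C')
  have c0 : c ≠ ⊤ := by have := qt; finiteness
  have a1 : ∀ k ξ, Ps (hh X Y (G (k + 1) - G k)) ξ ≤
      c * ENNReal.ofReal (2 ^ k * ‖G (k + 1) - G k‖) := fun k ξ => by
    refine (Ps_le (hm hX hY _) ξ (ρ := 2 ^ k) (by positivity) fun _ _ _ _ => hb hX hY _ _).trans ?_
    refine (add_le_add_right (mul_le_mul_right (fr hX hY ((G1 (k + 1)).sub (G1 k))) _) _).trans_eq ?_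
    have e : ENNReal.ofReal (2 ^ k)⁻¹ * ((4 ^ (k + 1) + 4 ^ k : ℕ) : ℝ≥0∞) =
        5 * ENNReal.ofReal (2 ^ k) := by
      rw [← ENNReal.ofReal_natCast, ← ENNReal.ofReal_mul (by positivity),
        ← ENNReal.ofReal_ofNat 5, ← ENNReal.ofReal_mul (by positivity)]
      congr 1
      have : (4 : ℝ) ^ k = 2 ^ k * 2 ^ k := by rw [← mul_pow]; norm_num
      push_cast
      rw [pow_succ, this]
      field_simp
      norm_num
    rw [← mul_assoc (ENNReal.ofReal _), e, ENNReal.ofReal_mul (norm_nonneg _),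
      ENNReal.ofReal_mul (p := 2 ^ k) (by positivity), ofReal_norm]
    simp only [c]
    ring
  have a0 : Summable fun k => ‖G (k + 1) - G k‖ :=
    Summable.of_nonneg_of_le (fun _ => norm_nonneg _) (fun j =>
        le_mul_of_one_le_left (norm_nonneg _) (one_le_pow₀ one_le_two)) G3
  have a2 : ∀ k, HasSum (fun j => G (j + k + 1) - G (j + k)) (T - G k) := fun k => by
    rw [hasSum_iff_tendsto_nat_of_summable_norm (f := fun j => G (j + k + 1) - G (j + k))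
      ((summable_nat_add_iff (f := fun k => ‖G (k + 1) - G k‖) k).2 a0)]
    have := ((tendsto_add_atTop_iff_nat k).2 G2).sub_const (G k)
    refine this.congr fun n => ?_
    have := Finset.sum_range_sub (fun j => G (j + k)) n
    simp only [zero_add, add_right_comm _ 1 k] at this
    exact this.symm
  have t1 : Tendsto (fun k => c * ∑' j, ENNReal.ofReal (2 ^ (j + k) * ‖G (j + k + 1) - G (j + k)‖))
      atTop (𝓝 0) := by
    have := ENNReal.Tendsto.const_mul (a := c) (ENNReal.tendsto_sum_nat_add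
      (fun k => ENNReal.ofReal (2 ^ k * ‖G (k + 1) - G k‖)) G3.tsum_ofReal_ne_top) (.inr c0)
    rwa [mul_zero] at this
  have t2 : Tendsto (fun k => ENNReal.ofReal (‖T - G k‖ * (α * β)) * q) atTop (𝓝 0) := by
    have := ENNReal.Tendsto.mul_const (ENNReal.tendsto_ofReal
      (((G2.const_sub T).norm).mul_const (α * β))) (.inr qt)
    simpa using this
  refine good_lim fun ε hε => ?_
  obtain ⟨k, k1, k2⟩ := ((t1.eventually (ge_mem_nhds hε)).and (t2.eventually (ge_mem_nhds hε))).exists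
  refine ⟨hh X Y (G k), hh X Y (T - G k), hm hX hY _, good_of (hm hX hY _) ENNReal.ofReal_ne_top
    (hb hX hY _) (ne_top_of_le_ne_top (by finiteness) (fr hX hY (G1 k))), fun z => ?_,
    .of_forall fun ξ => ?_, .of_forall fun R η => (P_le1 fun _ _ => hb hX hY _ _).trans k2⟩
  · refine le_trans (le_of_eq ?_) (enorm_add_le _ _)
    rw [hh, ← inner_add_right, _root_.sub_apply, add_sub_cancel]
  · refine (Ps_tsum (fun z => ?_) (fun j => hm hX hY (G (j + k + 1) - G (j + k))) ξ).trans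
      ((ENNReal.tsum_le_tsum fun j => a1 _ ξ).trans (ENNReal.tsum_mul_left.trans_le k1))
    have := ((innerSL ℂ (Y z)).comp (ContinuousLinearMap.apply ℂ H (X z))).hasSum (a2 k)
    exact le_trans (le_of_eq (congrArg enorm this.tsum_eq.symm)) enorm_tsum_le_tsum_enorm

end Pool.Agent.H.MP_135e37_an
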