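import Pool.Agent.H.MP_135e37_an.B
import Pool.Agent.H.MP_135e37_an.C

set_option autoImplicit false

namespace Pool.Agent.H.MP_135e37_an
open scoped ENNReal InnerProductSpace Topology
open MeasureTheory Set Filter Complex FourierTransform

variable {H : Type} [NormedAddCommGroup H] [InnerProductSpace ℂ H] [CompleteSpace H]

noncomputable def XX (A B : H →L[ℂ] H) (ξ : ℂ) : H →L[ℂ] H :=
  (((-2 * Real.pi * ξ.re : ℝ) : ℂ) * I) • A + (((-2 * Real.pi * ξ.im : ℝ) : ℂ) * I) • B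

noncomputable def UU (A B : H →L[ℂ] H) (ξ : ℂ) : H →L[ℂ] H := NormedSpace.exp (XX A B ξ)

variable {A B A' B' : H →L[ℂ] H}

omit [CompleteSpace H] in
theorem XX_add (a b : ℂ) : XX A B (a + b) = XX A B a + XX A B b := by
  simp only [XX, add_re, add_im]; push_cast; module

omit [CompleteSpace H] in
theorem XX_smul (r : ℝ) (v : ℂ) : XX A B (r • v) = (r : ℂ) • XX A B v := by
  simp only [XX, smul_re, smul_im, smul_eq_mul]; push_cast; module

omit [CompleteSpace H] in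
theorem XX_neg (v : ℂ) : XX A B (-v) = -XX A B v := by
  simp only [XX, neg_re, neg_im]; push_cast; module

omit [CompleteSpace H] in
theorem XX_sc {W : H →L[ℂ] H} (h : SemiconjBy W A A') (g : SemiconjBy W B B') (v : ℂ) :
    SemiconjBy W (XX A B v) (XX A' B' v) := (h.smul_right _).add_right (g.smul_right _)

theorem UU_sc {W : H →L[ℂ] H} (h : SemiconjBy W A A') (g : SemiconjBy W B B') (v : ℂ) (z : H) :
    W (UU A B v z) = UU A' B' v (W z) := by
  letI : NormedAlgebra ℚ (H →L[ℂ] H) := .restrictScalars ℚ ℂ _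
  exact DFunLike.congr_fun (XX_sc h g v).exp_right.eq z

theorem XX_star (h : IsSelfAdjoint A) (g : IsSelfAdjoint B) (v : ℂ) :
    star (XX A B v) = -XX A B v := by
  simp only [XX, star_add, star_smul, h.star_eq, g.star_eq, star_mul', star_def, conj_ofReal,
    conj_I]
  module

theorem grp (h : IsSelfAdjoint A) (g : IsSelfAdjoint B) (c : Commute A B) : Grp (UU A B) := by
  letI : NormedAlgebra ℚ (H →L[ℂ] H) := .restrictScalars ℚ ℂ _
  refine ⟨fun a b z => ?_, fun a y z => ?_, fun z => by simp [UU, XX]⟩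
  · have : Commute (XX A B a) (XX A B b) :=
      XX_sc (Commute.symm (XX_sc (Commute.refl A) c a)) (Commute.symm (XX_sc c.symm (Commute.refl B) a)) b
    rw [UU, XX_add, NormedSpace.exp_add_of_commute this]; rfl
  · rw [UU, UU, XX_neg, ← XX_star h g, ← NormedSpace.star_exp, ContinuousLinearMap.star_eq_adjoint,
      ContinuousLinearMap.adjoint_inner_right]

omit [CompleteSpace H] in
theorem Grp.nm {U : ℂ → H →L[ℂ] H} (h : Grp U) (a : ℂ) (z : H) : ‖U a z‖ = ‖z‖ := by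
  rw [@norm_eq_sqrt_re_inner ℂ, h.adj, ← h.add, neg_add_cancel, h.zero, ← @norm_eq_sqrt_re_inner ℂ]

theorem UU_c (z : H) : Continuous fun ξ => UU A B ξ z := by
  letI : NormedAlgebra ℚ (H →L[ℂ] H) := .restrictScalars ℚ ℂ _
  refine Continuous.clm_apply (NormedSpace.exp_continuous.comp ?_) continuous_const
  unfold XX; fun_prop

theorem UU_d (h : Grp (UU A B)) (a v : ℂ) (z : H) (r : ℝ) :
    HasDerivAt (fun r : ℝ => UU A B (a + r • v) z) (XX A B v (UU A B (a + r • v) z)) r := by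
  have e : ∀ r : ℝ, UU A B (a + r • v) z = NormedSpace.exp ((r : ℂ) • XX A B v) (UU A B a z) :=
    fun r => by rw [add_comm, h.add, UU, XX_smul]
  simp only [e]
  have := ((hasDerivAt_exp_smul_const' (XX A B v) (r : ℂ)).clm_apply
    (hasDerivAt_const _ (UU A B a z))).scomp r ofRealCLM.hasDerivAt
  simpa [Function.comp_def] using this

theorem ftc {φ φ' : ℝ → ℂ} (h : ∀ r, HasDerivAt φ (φ' r) r) (c : Continuous φ') {R : ℝ}
    (hR : 0 ≤ R) : ‖φ R - φ 0‖ₑ ≤ ∫⁻ r in Ioc 0 R, ‖φ' r‖ₑ := by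
  rw [← intervalIntegral.integral_eq_sub_of_hasDerivAt (fun r _ => h r) (c.intervalIntegrable _ _),
    intervalIntegral.integral_of_le hR]
  exact enorm_integral_le_lintegral_enorm _

theorem grad (h : Grp (UU A B)) (h' : Grp (UU A' B')) (a1 : IsSelfAdjoint A')
    (a2 : IsSelfAdjoint B') (x y : H) (a v : ℂ) (R : ℝ) (hR : 0 ≤ R) :
    ‖((2 * Real.pi : ℝ) : ℂ)⁻¹ * ⟪UU A' B' (a + R • v) y, UU A B (a + R • v) x⟫_ℂ -
      ((2 * Real.pi : ℝ) : ℂ)⁻¹ * ⟪UU A' B' a y, UU A B a x⟫_ℂ‖ₑ ≤ ∫⁻ r in Ioc 0 R, ‖v‖ₑ *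
      (hh (fun ξ => UU A B ξ x) (fun ξ => UU A' B' ξ y) (A - A') (a + r • v) +
        hh (fun ξ => UU A B ξ x) (fun ξ => UU A' B' ξ y) (B - B') (a + r • v)) := by
  have c1 : Continuous fun r : ℝ => UU A B (a + r • v) x := (UU_c x).comp (by fun_prop)
  have c2 : Continuous fun r : ℝ => UU A' B' (a + r • v) y := (UU_c y).comp (by fun_prop)
  have := ftc (φ' := fun r : ℝ => -I *
    (v.re * ⟪UU A' B' (a + r • v) y, (A - A') (UU A B (a + r • v) x)⟫_ℂ +
      v.im * ⟪UU A' B' (a + r • v) y, (B - B') (UU A B (a + r • v) x)⟫_ℂ))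
    (φ := fun r : ℝ => ((2 * Real.pi : ℝ) : ℂ)⁻¹ *
      ⟪UU A' B' (a + r • v) y, UU A B (a + r • v) x⟫_ℂ) (fun r => by
      refine (((UU_d h' a v y r).inner ℂ (UU_d h a v x r)).const_mul _).congr_deriv ?_
      rw [← ContinuousLinearMap.adjoint_inner_right (XX A' B' v),
        ← ContinuousLinearMap.star_eq_adjoint, XX_star a1 a2]
      have : (Real.pi : ℂ) ≠ 0 := ofReal_ne_zero.2 Real.pi_ne_zero
      simp only [XX, _root_.neg_apply, _root_.add_apply, _root_.smul_apply, _root_.sub_apply,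
        inner_neg_right, inner_add_right, inner_smul_right, inner_sub_right]
      push_cast
      field_simp
      ring) (by fun_prop) hR
  simp only [zero_smul, add_zero] at this
  refine this.trans (lintegral_mono fun r => ?_)
  have n : ∀ t : ℝ, |t| ≤ ‖v‖ → ‖(t : ℂ)‖ₑ ≤ ‖v‖ₑ := fun t ht =>
    enorm_le_iff_norm_le.2 (by rwa [norm_real])
  have : ‖-I‖ₑ = 1 := by rw [← ofReal_norm]; simp
  rw [enorm_mul, this, one_mul, mul_add]
  refine (enorm_add_le _ _).trans (add_le_add ?_ ?_) <;> rw [enorm_mul]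
  · exact mul_le_mul_left (n _ (abs_re_le_norm v)) _
  · exact mul_le_mul_left (n _ (abs_im_le_norm v)) _

def Ap (T : H →L[ℂ] H) : Prop :=
  ∃ G : ℕ → H →L[ℂ] H, (∀ k, Rk (G k) (4 ^ k)) ∧ Tendsto G atTop (𝓝 T) ∧
    Summable fun k => (2 : ℝ) ^ k * ‖G (k + 1) - G k‖

theorem itw {U V : ℂ → H →L[ℂ] H} (hU : Grp U) (hV : Grp V) {T S W : H →L[ℂ] H} (ap : Ap (T - S))
    (c1 : ∀ ξ z, T (U ξ z) = U ξ (T z)) (c2 : ∀ ξ z, S (V ξ z) = V ξ (S z)) {u : ℝ → ℂ}
    (wk : ∀ x y, Tendsto (fun t => ⟪y, U (u t) x⟫_ℂ) atTop (𝓝 0))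
    (hW : ∀ x, Tendsto (fun t => V (-u t) (U (u t) x)) atTop (𝓝 (W x))) : SemiconjBy W T S := by
  ext z
  obtain ⟨G, G1, G2, -⟩ := ap
  have a := cpt G1 G2 (fun t => (hU.nm (u t) z).le) (wk z)
  have b := (hW (T z)).sub ((S.continuous.tendsto _).comp (hW z))
  refine sub_eq_zero.1 (tendsto_nhds_unique b ?_)
  rw [tendsto_zero_iff_norm_tendsto_zero] at a ⊢
  refine a.congr fun t => ?_
  simp only [Function.comp]
  rw [c2, ← map_sub, hV.nm, ← c1, _root_.sub_apply]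

theorem main0 (sA : IsSelfAdjoint A) (sB : IsSelfAdjoint B) (sA' : IsSelfAdjoint A')
    (sB' : IsSelfAdjoint B') (c : Commute A B) (c' : Commute A' B') (p1 : Ap (A - A'))
    (p2 : Ap (B - B'))
    (hf : ∀ x, ∃ f : ℂ → ℂ, Integrable f ∧ ∀ ξ, ⟪x, UU A B ξ x⟫_ℂ = 𝓕 f ξ)
    {u v : ℝ → ℂ} (hu : Tendsto u atTop (cocompact ℂ)) (hv : Tendsto v atTop (cocompact ℂ))
    {W W' : H →L[ℂ] H}
    (hW : ∀ x, Tendsto (fun t => UU A' B' (-u t) (UU A B (u t) x)) atTop (𝓝 (W x)))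
    (hW' : ∀ x, Tendsto (fun t => UU A' B' (-v t) (UU A B (v t) x)) atTop (𝓝 (W' x))) :
    W = W' := by
  have g := grp sA sB c
  have g' := grp sA' sB' c'
  have key : ∀ {w : ℝ → ℂ}, Tendsto w atTop (cocompact ℂ) → ∀ {Z : H →L[ℂ] H},
      (∀ x, Tendsto (fun t => UU A' B' (-w t) (UU A B (w t) x)) atTop (𝓝 (Z x))) →
      ∀ x y, ⟪Z y, W x⟫_ℂ = ⟪Z y, W' x⟫_ℂ := fun {w} hw Z hZ x y => by
    have wk : ∀ x y, Tendsto (fun t => ⟪y, UU A B (w t) x⟫_ℂ) atTop (𝓝 0) := fun x y => by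
      obtain ⟨f, fi, hf⟩ := hf x
      exact (weak g fi hf y).comp hw
    have i := UU_sc (itw g g' p1 (UU_sc (Commute.refl A) c) (UU_sc (Commute.refl A') c') wk hZ)
      (itw g g' p2 (UU_sc c.symm (Commute.refl B)) (UU_sc c'.symm (Commute.refl B')) wk hZ)
    have n : ‖Z.adjoint‖ ≤ 1 := by
      rw [LinearIsometryEquiv.norm_map]
      refine Z.opNorm_le_bound zero_le_one fun z => le_of_tendsto' (hZ z).norm fun t => ?_
      rw [g'.nm, g.nm, one_mul]
    refine (smd g hf).induction (P := fun x => ⟪Z y, W x⟫_ℂ = ⟪Z y, W' x⟫_ℂ) (fun x hx => ?_)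
      (isClosed_eq (by fun_prop) (by fun_prop)) x
    refine (smd g hf).induction (P := fun y => ⟪Z y, W x⟫_ℂ = ⟪Z y, W' x⟫_ℂ) (fun y hy => ?_)
      (isClosed_eq (by fun_prop) (by fun_prop)) y
    obtain ⟨C, C1, C2⟩ := hx
    obtain ⟨D, D1, D2⟩ := hy
    have sx : Sv (fun ξ => UU A B ξ x) ‖x‖ C := ⟨UU_c x, fun ξ => (g.nm _ _).le, C1, C2⟩
    have sy : Sv (fun ξ => UU A' B' ξ (Z y)) ‖Z y‖ D := ⟨UU_c _, fun ξ => (g'.nm _ _).le, D1,
      fun a ha => by
        simp only [← i, ← ContinuousLinearMap.adjoint_inner_left Z]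
        exact D2 _ ((Z.adjoint.le_opNorm a).trans (mul_le_one₀ n (norm_nonneg _) ha))⟩
    obtain ⟨G, G1, G2, G3⟩ := p1
    obtain ⟨F, F1, F2, F3⟩ := p2
    have := sob (g := fun ξ => ((2 * Real.pi : ℝ) : ℂ)⁻¹ * ⟪UU A' B' ξ (Z y), UU A B ξ x⟫_ℂ)
      ((hm sx sy _).add (hm sx sy _)) (good_add (hm sx sy _) (goodT sx sy G1 G2 G3)
      (goodT sx sy F1 F2 F3)) (grad g g' sA' sB' x (Z y)) hu hv
      (L := ((2 * Real.pi : ℝ) : ℂ)⁻¹ * ⟪Z y, W x⟫_ℂ) (M := ((2 * Real.pi : ℝ) : ℂ)⁻¹ * ⟪Z y, W' x⟫_ℂ)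
      (by simp only [g'.adj]; exact (tendsto_const_nhds.inner (hW x)).const_mul _)
      (by simp only [g'.adj]; exact (tendsto_const_nhds.inner (hW' x)).const_mul _)
    exact mul_left_cancel₀ (inv_ne_zero (ofReal_ne_zero.2 Real.two_pi_pos.ne')) this
  ext x
  rw [← sub_eq_zero, ← inner_self_eq_zero (𝕜 := ℂ), inner_sub_left, inner_sub_right,
    inner_sub_right, key hu hW, key hv hW', sub_self, sub_self, sub_self]

theorem ray (θ : ℝ) : ∃ u : ℝ → ℂ, Tendsto u atTop (cocompact ℂ) ∧ ∀ (A B : H →L[ℂ] H) (t : ℝ),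
    ((t : ℂ) * I) • ((Real.cos θ : ℂ) • A + (Real.sin θ : ℂ) • B) = XX A B (u t) := by
  refine ⟨fun t => (-(t / (2 * Real.pi))) • (⟨Real.cos θ, Real.sin θ⟩ : ℂ), ?_, fun A B t => ?_⟩
  · rw [← Metric.cobounded_eq_cocompact, ← tendsto_norm_atTop_iff_cobounded]
    have e : ‖(⟨Real.cos θ, Real.sin θ⟩ : ℂ)‖ = 1 := by
      rw [Complex.norm_def, normSq_mk, ← sq, ← sq, Real.cos_sq_add_sin_sq, Real.sqrt_one]
    simp only [norm_smul, e, mul_one, norm_neg]
    exact tendsto_abs_atTop_atTop.comp (tendsto_id.atTop_div_const Real.two_pi_pos)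
  · have : (Real.pi : ℂ) ≠ 0 := ofReal_ne_zero.2 Real.pi_ne_zero
    rw [XX_smul, XX, smul_add, smul_add, smul_smul, smul_smul, smul_smul, smul_smul]
    congr 2 <;> push_cast <;> field_simp

theorem tr {f : ℝ × ℝ → ℂ} (fi : Integrable f) : ∃ k : ℂ → ℂ, Integrable k ∧ ∀ ξ : ℂ,
    ∫ p : ℝ × ℝ, f p * Complex.exp (I * (((-2 * Real.pi * ξ.re : ℝ) : ℂ) * (p.1 : ℂ) +
      ((-2 * Real.pi * ξ.im : ℝ) : ℂ) * (p.2 : ℂ))) = 𝓕 k ξ := by
  refine ⟨f ∘ measurableEquivRealProd, (volume_preserving_equiv_real_prod.integrable_comp_emb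
    measurableEquivRealProd.measurableEmbedding).2 fi, fun ξ => ?_⟩
  rw [← volume_preserving_equiv_real_prod.integral_comp', Real.fourier_eq']
  refine integral_congr_ae (.of_forall fun p => ?_)
  simp only [smul_eq_mul, Function.comp, Complex.inner, measurableEquivRealProd_apply]
  rw [mul_comm]
  congr 2
  simp only [mul_re, conj_re, conj_im]
  push_cast
  ring

end Pool.Agent.H.MP_135e37_an
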